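import Pool.Agent.H7.GU.Stmts

/-!
# Triangles, residues `ω - 1 ≤ 2 r`, `r ≤ ω - 4`: definitions of the board `hz` (MP_fd41b2_co)

`b = p + 3 = ω - 1`, `t = 3`, `Δ = (p + 3) a + r`.
-/

set_option autoImplicit false

open Finset

namespace Pool.HZ7

open Pool.Agent.H23.KT Pool.Agent.H46.KW Pool.KQ Pool.GT7 Pool.GU7

/-- The conditions of the theorem: `b ≤ 2 r`, `r ≤ b - 3` (so `p ≥ 3`, `b ≥ 6`, `r ≥ 3`). -/
structure PrZ (p r : ℕ) : Prop where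
  rb : p + 3 ≤ 2 * r
  rp : r ≤ p

/-- The factor `(b - r) / (2 r)`. -/
noncomputable def ph (p r : ℕ) : ℝ := ((p : ℝ) + 3 - r) / (2 * r)

/-- The multiplier: `Mz * a ^ b = (b - 1) ph a`. -/
noncomputable def Mz (p r a : ℕ) : ℝ := ((p : ℝ) + 2) * ph p r * a / (a : ℝ) ^ (p + 3)

/-- The average deficit, divided by `a`: `Mz * a ^ b * (r / (b + 1)) = lz * a`. -/
noncomputable def lz (p r : ℕ) : ℝ := ((p : ℝ) + 2) * ((p : ℝ) + 3 - r) / (2 * ((p : ℝ) + 4))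

/-- `Str` with another bound for the missing pairs, two constants, and without `exc`. -/
structure Stq {V : Type} (G : SimpleGraph V) (p a : ℕ) (e f C C' : ℝ) (W : Finset V)
    (P : Fin (p + 3) → Finset V) (U : Finset V) : Prop where
  par : Par G P
  disU : ∀ i, Disjoint (P i) U
  cov : ∀ u, u ∈ W ↔ u ∈ U ∨ ∃ i, u ∈ P i
  lo : ∀ i, (1 - e) * a ≤ ((P i).card : ℝ)
  hi : ∀ i, ((P i).card : ℝ) ≤ (1 + e) * a
  mis : ∀ i, ∀ u ∈ P i, ∀ k, k ≠ i → ((non G (P k) u).card : ℝ) ≤ f * a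
  tot : (tot G P : ℝ) ≤ C * a
  cU : (U.card : ℝ) ≤ C'

/-- The number of `b`-cliques in `X` in which `z` has at most `b - 2` neighbours. -/
noncomputable def nlow {V : Type} (G : SimpleGraph V) (p : ℕ) (X : Finset V) (z : V) : ℕ :=
  ((clq G X (p + 3)).filter (fun L => (nb G L z).card ≤ p + 1)).card

/-- A small constant. -/
noncomputable def cz (p : ℕ) : ℝ := (e1 p / 8) ^ 2 / 2 ^ (p + 2)

/-- A clean vertex: full degree and no exceptional vertices. -/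
def Cl {V : Type} [Fintype V] [DecidableEq V] (G : SimpleGraph V) (p r a : ℕ) (e C : ℝ) (v : V)
    (P : Fin (p + 3) → Finset V) : Prop :=
  (nb G univ v).card = (p + 3) * a + r ∧ Str G p a e C (nb G univ v) P ∅

/-- The array of the parts: `A i j` is the part of `N(κ i)` which contains `κ j`. -/
structure Arr {V : Type} [Fintype V] [DecidableEq V] (G : SimpleGraph V) (p r a : ℕ)
    (e C C₅ : ℝ) (D : Finset V) (κ : Fin (p + 4) → V) (A : Fin (p + 4) → Fin (p + 4) → Finset V) :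
    Prop where
  adj : ∀ i j, i ≠ j → G.Adj (κ i) (κ j)
  deg : ∀ i, (nb G univ (κ i)).card = (p + 3) * a + r
  few : ∀ i, ((nb G univ (κ i) \ D).card : ℝ) ≤ 1 / 4 * a
  nbr : ∀ i y, G.Adj (κ i) y ↔ ∃ j, y ∈ A i j
  emp : ∀ i, A i i = ∅
  mem : ∀ i j, i ≠ j → κ j ∈ A i j
  dis : ∀ i j k, j ≠ k → Disjoint (A i j) (A i k)
  ind : ∀ i j, ∀ u ∈ A i j, ∀ w ∈ A i j, ¬ G.Adj u w
  lo : ∀ i j, i ≠ j → (1 - e) * a ≤ ((A i j).card : ℝ)
  hi : ∀ i j, ((A i j).card : ℝ) ≤ (1 + e) * a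
  mis : ∀ i j k, j ≠ k → ∀ u ∈ A i j, ((non G (A i k) u).card : ℝ) ≤ e1 p * a
  tot : ∀ i j k, j ≠ k → ((∑ u ∈ A i j, (non G (A i k) u).card : ℕ) : ℝ) ≤ C * a
  typ : ∀ i l k, i ≠ l → l ≠ k → ((non G (A i k) (κ l)).card : ℝ) ≤ C₅

/-- The core of a block: `b + 1` parts. -/
structure Cor {V : Type} [Fintype V] [DecidableEq V] (G : SimpleGraph V) (p r a : ℕ)
    (C₆ : ℝ) (Q : Fin (p + 4) → Finset V) : Prop where
  par : Par G Q
  siz : ∀ j, (a : ℝ) ≤ (Q j).card + C₆ ∧ ((Q j).card : ℝ) ≤ a + C₆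
  mis : ∀ j, ∀ u ∈ Q j, ∀ k, k ≠ j → ((non G (Q k) u).card : ℝ) ≤ ((p : ℝ) + 5) * e1 p * a
  tot : (tot G Q : ℝ) ≤ C₆ * a
  full : ∀ j, ∃ v ∈ Q j, (nb G univ v).card = (p + 3) * a + r ∧ nb G univ v ⊆ un Q

/-- A block. -/
structure Blb {V : Type} [Fintype V] [DecidableEq V] (G : SimpleGraph V) (p r a : ℕ)
    (C : ℝ) (Q : Fin (p + 4) → Finset V) : Prop where
  par : Par G Q
  siz : ∀ j, (a : ℝ) ≤ (Q j).card + C ∧ ((Q j).card : ℝ) ≤ a + C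
  mis : ∀ j, ∀ u ∈ Q j, ((∑ k ∈ univ.erase j, (non G (Q k) u).card : ℕ) : ℝ) ≤ a / 4
  tot : (tot G Q : ℝ) ≤ C * a
  full : ∀ j, ∃ v ∈ Q j, (nb G univ v).card = (p + 3) * a + r ∧ nb G univ v ⊆ un Q
  out : ∀ q, q ∉ un Q →
    ((nb G (un Q) q).card : ℝ) ≤ ((p : ℝ) + 3 - 1 / (32 * ((p : ℝ) + 5))) * a

/-- The deficit of the degree of `z` inside `S`. -/
noncomputable def dl {V : Type} (G : SimpleGraph V) (p r a : ℕ) (S : Finset V) (z : V) : ℕ :=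
  (p + 3) * a + r - (nb G S z).card

/-- `Ψ`: the number of triangles of a block with `a + s - σ j` vertices in part `j` without deficit. -/
noncomputable def Psi (p r a s : ℕ) (n σ : Fin (p + 4) → ℕ) : ℝ :=
  (es n 3 : ℝ) - 1 / 2 * (((p : ℝ) + 2) * a + r - s) * ∑ j, (n j : ℝ) * σ j -
    1 / 2 * ∑ j, (n j : ℝ) * σ j * (σ j + 1)

/-- `X = (b - 1) a + r + 1`. -/
noncomputable def Xz (p r a : ℕ) : ℝ := ((p : ℝ) + 2) * a + r + 1

/-- The number of triangles of the extremal graph. -/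
noncomputable def kx (p r a : ℕ) : ℝ :=
  (TT (p + 4) 3 a (r + 1) : ℝ) - 1 / 2 * (((p + 3 - r : ℕ) : ℝ) * a) * Xz p r a -
    (if Even ((p + 3 - r) * a) then 0 else Xz p r a / 2 - 1)

end Pool.HZ7
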