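import Pool.Agent.H7.HZ.Defs

/-!
# Triangles, residues `ω - 1 ≤ 2 r`, `r ≤ ω - 4`: statements of the board `hz` (MP_fd41b2_co)

`b = p + 3 = ω - 1`, `Δ = (p + 3) a + r`, `PrZ p r`: `b ≤ 2 r`, `r ≤ b - 3`. THEOREM (FNZ): for large `a` the
most triangles per vertex has the graph `R` = Turán graph with `Δ + a + 1` vertices and `b + 1` parts
(`r + 1` parts with `a + 1` vertices, `b - r` small parts with `a`) minus a matching which covers the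
vertices of the small parts (plus one more edge if `(b - r) a` is odd): `kx p r a` triangles. Row `XXX` =
`def XXXStmt : Prop`; file `Pool/Agent/H<k>/HZ/XXX.lean`, `import Pool.Agent.H7.HZ.Stmts`, namespace
`Pool.HZ7`, `open Pool.Agent.H23.KT Pool.Agent.H46.KW Pool.KQ Pool.GT7 Pool.GU7`. Rows needed as
hypotheses may be from `gt7` (`Pool.GT7`), `kq` (`Pool.KQ`) and `gu8` (`Pool.GU7`), all proved there.
`non G X u` = the nonneighbours of `u` in `X`; `un`, `tot`, `Par`, `sz`, `es` work for any number of parts.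
IDEA. (1) The weights of the board `gt7` with the multiplier `Mz` give: in a graph with about as many
triangles as `R` nearly all vertices are clean (WSG). (2) Around a good clique of clean vertices there is
a block (`Blb`): `b + 1` parts, nearly complete, bounded irregularities. (3) For a block `S` the number
of triangles meeting `S` is at most `kx/(Δ+a+1) * card S` (MAN): delete `S` and use induction (FNZ).
-/

set_option autoImplicit false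

open Finset

namespace Pool.HZ7

open Pool.Agent.H23.KT Pool.Agent.H46.KW Pool.KQ Pool.GT7 Pool.GU7

/-! ### Most vertices are clean -/

/-- (PWN) Pointwise inequality. `1 - gg p r (B+1) = ww p r B`. PROOF. `b = p + 3`. `B + 1 ≤ r`: `ww = 0`, the
right side is `(b-1)(3r-b)/(2r)` and at `B = r - 1` the difference is `(b-r)(2r-b+1)/(2r) ≥ 3/(2r) ≥ 1/(2b)`.
`q = B + 1 ≥ r`: `ww = b (q-r)/((b-r) q)` and the difference is `(b-q)(2q-b+1)/(2q)` (identity), `2q ≥ b`; it is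
`0` for `q = b` and `≥ 1/(2q) ≥ 1/(2b)` for `q ≤ b - 1`. -/
def PWNStmt : Prop :=
  ∀ p r : ℕ, PrZ p r → 0 < ph p r ∧ ph p r ≤ 1 / 2 ∧
    (∀ B ≤ p + 2, (B : ℝ) ≤ ((p : ℝ) + 2) * (1 - ph p r) + ph p r * ((p : ℝ) + 2) * ww p r B) ∧
    (∀ B ≤ p + 1, (B : ℝ) + 1 / (2 * ((p : ℝ) + 3)) ≤
      ((p : ℝ) + 2) * (1 - ph p r) + ph p r * ((p : ℝ) + 2) * ww p r B)

/-- (MLG) `MLB0Stmt` (board `gu8`) with any `f ≥ 0` in place of `e1 p`. Needs TRV, GCO0. PROOF as there. -/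
def MLGStmt : Prop :=
  ∀ {V : Type} [DecidableEq V] (G : SimpleGraph V) (p w r a : ℕ) (e f : ℝ)
    (P : Fin (p + 3) → Finset V), Pr0 p w r → 0 ≤ e → 0 ≤ f → Par G P →
    (∀ i, ((P i).card : ℝ) ≤ (1 + e) * a) →
    (∀ i, ∀ u ∈ P i, ∀ k, k ≠ i → ((non G (P k) u).card : ℝ) ≤ f * a) →
    ∑ L ∈ clq G (un P) (p + 3), mm G p r (un P) L ≤
      tot G P * ((1 + e) * a) ^ (p + 2) *
        ((r : ℝ) / (((p : ℝ) + 3 - r) * ((p : ℝ) + 2)) + ((p : ℝ) + 3) / 2 * f)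

/-- (EDU) Edges. PROOF. (1) Edges in `W`: inside `un P` exactly `es (sz P) 2 - tot G P / 2` (pairs in different
parts which are adjacent), at most `∑_(z ∈ U) card (nb G (un P) z)` between, at most `choose (card U) 2` in
`U`. (2) `2 es n 2 = (∑ n)^2 - ∑ n^2 ≤ (1 - 1/b)(∑ n)^2` (Cauchy-Schwarz; `EST (1)` or directly), `∑ n = b a +
(r - x)`; `TT (p+3) 2 a r ≥ choose b 2 a^2 + (b-1) r a` (exactly `+ choose r 2`): `TTR (1)` twice or `EST (2)`. -/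
def EDUStmt : Prop :=
  (∀ {V : Type} [DecidableEq V] (G : SimpleGraph V) (p : ℕ) (W : Finset V)
    (P : Fin (p + 3) → Finset V) (U : Finset V), Par G P → (∀ i, Disjoint (P i) U) →
    (∀ u, u ∈ W ↔ u ∈ U ∨ ∃ i, u ∈ P i) →
    (kc G W 2 : ℝ) + tot G P / 2 ≤
      es (sz P) 2 + ∑ z ∈ U, ((nb G (un P) z).card : ℝ) + (U.card : ℝ) ^ 2) ∧
  (∀ (p a r x : ℕ) (n : Fin (p + 3) → ℕ), r ≤ p → ∑ i, n i + x = (p + 3) * a + r →
    (es n 2 : ℝ) + x * (((p : ℝ) + 2) * a) ≤ TT (p + 3) 2 a r + ((r : ℝ) + x) ^ 2)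

/-- (SPX) The weights split. PROOF. `L ∈ clq G W b` with `L ∩ U = ∅` is in `clq G (un P) b`, and there
`min r XX ≤ XX` = the summand (`W = un P ∪ U` disjoint, `gg p r (B+1) = 1 - ww p r B`). The others: `min ≤ r` and
there are at most `∑_(z ∈ U) choose (card W) (p+2)` of them. -/
def SPXStmt : Prop :=
  ∀ {V : Type} [DecidableEq V] (G : SimpleGraph V) (p r a : ℕ) (W : Finset V)
    (P : Fin (p + 3) → Finset V) (U : Finset V), Par G P → (∀ i, Disjoint (P i) U) →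
    (∀ u, u ∈ W ↔ u ∈ U ∨ ∃ i, u ∈ P i) →
    ∑ L ∈ clq G W (p + 3), min (r : ℝ) (XX G p r a W L) ≤
      ∑ L ∈ clq G (un P) (p + 3), (((((p + 3) * a + r : ℕ) : ℝ) - (un P).card) +
        mm G p r (un P) L - ∑ z ∈ U, ww p r (nb G L z).card) +
      (r : ℝ) * U.card * (W.card : ℝ) ^ (p + 2)

/-- (ZSU) One exceptional vertex. Needs PWN, EXB, TRV. PROOF. `b = p + 3`, `X = un P`, `N = kc G X b`, `B = card
(nb G L z) ≤ p + 2` (`CB G W (p+3)`, as in CCK (1)). Sum PWN over `L ∈ clq G X b`: `∑ B + nlow/(2b) ≤ N (b-1)(1-ph) + ph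
(b-1) TZ`. EXB (`j = 1`; `kc _ 1` = card): `((1-e) a)^(b-1) n_z ≤ ∑ B + b (tot (2a)^(p+1)) ≤ ∑ B + K a^(b-1)`.
`N = card trv ≤ ((1+e) a)^b` (TRV). Divide by `a^(b-1)`; `n_z ≤ b (1+e) a`; `e` small, then `a` large. -/
def ZSUStmt : Prop :=
  ∀ p r : ℕ, PrZ p r → ∀ δ : ℝ, 0 < δ → ∃ e₀ : ℝ, 0 < e₀ ∧ e₀ ≤ 1 / 2 ∧ ∀ C : ℝ, 0 < C →
    ∃ a₀ : ℕ, ∀ a ≥ a₀, ∀ {V : Type} [DecidableEq V] (G : SimpleGraph V) (e f C' : ℝ)
    (W : Finset V) (P : Fin (p + 3) → Finset V) (U : Finset V), 0 ≤ e → e ≤ e₀ →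
    Stq G p a e f C C' W P U → CB G W (p + 3) → ∀ z ∈ U,
    ((nb G (un P) z).card : ℝ) +
        1 / (2 * ((p : ℝ) + 3)) * (nlow G p (un P) z : ℝ) / (a : ℝ) ^ (p + 2) ≤
      ((p : ℝ) + 2) * (1 - ph p r) * a + Mz p r a * TZ G p r (un P) z + δ * a

/-- (LOQ) The local inequality. Needs PWN, MLG, EDU, SPX, ZSU, TRV.
PROOF. `b = p+3`, `M = Mz`, `φ = ph`, `x = Δ - card (un P) = card U + d`, `d = Δ - card W ∈ [0, C']`; order of the
choices: `f` (from `C`, `ε`), then `e` (from `C'`, `ε`), then `a₀`. SPX: `M ∑ min ≤ M [x N + ∑ mm - ∑_z TZ] + M r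
C' ((b+1) a)^(b-1)`, the last term is bounded (`M a^(b-1) = (b-1) φ`). `M x N ≤ φ (b-1) a x (1+e)^b ≤ φ (b-1) a x +
ε a/8`. MLG: `M ∑ mm ≤ φ (b-1)(1+e)^(b-1) tot (r/((b-r)(b-1)) + b f/2)` and `φ (b-1) r/((b-r)(b-1)) = 1/2`, so
`≤ tot/2 + ε a/8` (`tot ≤ C a`). EDU: `df ≥ x (b-1) a - (r+x)^2 + tot/2 - ∑_z n_z - C'^2`, ZSU (`δ = ε/(8 C')`):
`∑ n_z ≤ card U (b-1)(1-φ) a + M ∑ TZ - (1/(2b)) ∑ nlow/a^(b-1) + ε a/8`. So `df - M ∑ min ≥ (1-φ)(b-1) a (x - card U) +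
(1/(2b)) ∑ nlow/a^(b-1) - ε a`, and `(1-φ)(b-1) ≥ 1/2`. -/
def LOQStmt : Prop :=
  ∀ p r : ℕ, PrZ p r → ∀ C ε : ℝ, 0 < C → 0 < ε → ∃ f : ℝ, 0 < f ∧ f ≤ 1 ∧ ∀ C' : ℝ, 0 < C' →
    ∃ e₀ : ℝ, 0 < e₀ ∧ e₀ ≤ 1 / 2 ∧ ∃ a₀ : ℕ, ∀ a ≥ a₀, ∀ {V : Type} [DecidableEq V]
    (G : SimpleGraph V) (e : ℝ) (W : Finset V) (P : Fin (p + 3) → Finset V) (U : Finset V),
    0 ≤ e → e ≤ e₀ → Stq G p a e f C C' W P U → CB G W (p + 3) → W.card ≤ (p + 3) * a + r →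
    (((p + 3) * a + r : ℕ) : ℝ) ≤ W.card + C' →
    Mz p r a * ∑ L ∈ clq G W (p + 3), min (r : ℝ) (XX G p r a W L) +
        (a : ℝ) / 2 * ((((p + 3) * a + r : ℕ) : ℝ) - W.card) +
        1 / (2 * ((p : ℝ) + 3)) * ∑ z ∈ U, (nlow G p (un P) z : ℝ) / (a : ℝ) ^ (p + 2) ≤
      df G p 0 r a W + ε * a

/-- (REF) Vertices with many missing pairs become exceptional. Needs TRV, BRK.
PROOF. `P' i` = the `y ∈ P i` with `card (non G (P k) y) ≤ f a` for all `k ≠ i`; at most `C/f` vertices are left out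
(each has more than `f a` of the `tot ≤ C a`), `U' = U` + these, `C' = C + C/f`. `(1-e) a - C/f ≤ card (P' i)`, so
`lo` with `2 e` for `a` large. `z ∈ U`: `exc` (with `i = 0`, then with the `k` found) gives two different parts
`k₁, k₂` with `card (non G (P k) z) ≥ e1/4 a`, so `≥ e1/8 a` in `P'`. Transversals with these two in the sets of
nonneighbours: at least `(e1/8 a)^2 ((1-2e) a)^(p+1) - tot (2a)^(p+1) ≥ cz a^(p+3)` of them are cliques (BRK (1)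
for `P'`: at most `tot (2a)^(p+1)` transversals are not in `trv`; `(3/4)^(p+1) ≥ 1/2^(p+1)`), and they have at
most `p + 1` neighbours of `z`. -/
def REFStmt : Prop :=
  ∀ (p : ℕ) (f C : ℝ), 0 < f → 0 < C → ∃ C' : ℝ, 0 < C' ∧ ∀ e : ℝ, 0 < e → e ≤ 1 / 8 →
    ∃ a₀ : ℕ, ∀ a ≥ a₀, ∀ {V : Type} [DecidableEq V] (G : SimpleGraph V) (W : Finset V)
    (P : Fin (p + 3) → Finset V) (U : Finset V), Str G p a e C W P U →
    ∃ (P' : Fin (p + 3) → Finset V) (U' : Finset V), Stq G p a (2 * e) f C C' W P' U' ∧ U ⊆ U' ∧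
      ∀ z ∈ U, cz p * (a : ℝ) ^ (p + 3) ≤ nlow G p (un P') z

/-- (WSV) The inequality for every vertex: it has a bonus `s a` unless `v` is clean.
Needs STC, MMC, REF, LOQ, PWN, TTR (3), ZYG. PROOF. `b = p + 3`, `W = N(v)`, `CB G W b`. `C₂ = 2^b (b-1) ph r + lz +
1`. If `df ≥ C₂ a`: `Mz ∑ min ≤ Mz r (a+1)^b ≤ 2^b (b-1) ph r a` (`zyk`: `kc ≤ (a+1)^b`), done with `s = c ≤ 1`. Otherwise
STC (`w = 0`, `C₀ = C₂`; `TT ≥ choose b 2 a^2`) gives `Str` with `e' = min e (..)`, and `card W ≥ Δ - K` (ZYG: `kc G W 2 ≤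
(b-1)/(2b) card W^2`). REF with the `f` of LOQ (`C`, `ε/2`), then LOQ with `C'` = maximum of the `C'` of REF and `K`
(`Stq` is monotone in `e`, `C'`). MMC: `kc G W b ≥ a^b (1 - C₁/(a+C₁))`, so `Mz (r/(b+1)) kc ≥ lz a - ε a/4`. If `U = ∅` and
`card W = Δ`: `Cl`, `s = 0`. Otherwise the bonus is `≥ a/2` or `≥ (1/(2b)) cz a`: `c = cz/(4b)` (`≤ 1/2`). -/
def WSVStmt : Prop :=
  ∀ p r : ℕ, PrZ p r → ∃ c C : ℝ, 0 < c ∧ 0 < C ∧ ∀ ε e : ℝ, 0 < ε → 0 < e → e ≤ 1 / 8 →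
    ∃ a₀ : ℕ, ∀ a ≥ a₀, ∀ {V : Type} [Fintype V] [DecidableEq V] (G : SimpleGraph V),
    G8 G p r a → ∀ v : V, ∃ s : ℝ, (s = c ∨ s = 0 ∧ ∃ P, Cl G p r a e C v P) ∧
      Mz p r a * ∑ L ∈ clq G (nb G univ v) (p + 3), min (r : ℝ) (XX G p r a (nb G univ v) L) -
          Mz p r a * ((r : ℝ) / ((p : ℝ) + 4)) * kc G (nb G univ v) (p + 3) + lz p r * a + s * a ≤
        df G p 0 r a (nb G univ v) + ε * a

/-- (WSG) Nearly all vertices are clean. Needs WSV, PHI0. PROOF. Sum WSV (with `ε' = c ε/4`) over all `v`. As in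
GLD: `∑_v ∑_L min = ∑_(K ∈ clq univ (b+1)) ∑_(v ∈ K) min ≥ r kc G univ (b+1)` (PHI0, `w = 0`) and `∑_v kc G N(v) b = (b+1) kc
G univ (b+1)`. So `lz a m + c a #{s = c} ≤ ∑ df + ε' a m ≤ lz a m + K m + ε' a m`. `D` = the `v` with `s = 0`. -/
def WSGStmt : Prop :=
  ∀ p r : ℕ, PrZ p r → ∃ C : ℝ, 0 < C ∧ ∀ ε e K : ℝ, 0 < ε → 0 < e → e ≤ 1 / 8 →
    ∃ a₀ : ℕ, ∀ a ≥ a₀, ∀ {V : Type} [Fintype V] [DecidableEq V] (G : SimpleGraph V),
    G8 G p r a →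
    ∑ v, df G p 0 r a (nb G univ v) ≤ (lz p r * a + K) * Fintype.card V →
    ∃ (D : Finset V) (P : V → Fin (p + 3) → Finset V), (∀ v ∈ D, Cl G p r a e C v (P v)) ∧
      ((univ \ D).card : ℝ) ≤ ε * Fintype.card V

/-! ### Blocks -/

/-- (FND) A good clique of clean vertices. Needs TRV, BRK. PROOF. `b = p + 3`, `m = card V`. `v ∈ D`: `kc G N(v) b ≥ ((1-e)
a)^b - tot (2a)^(p+1) ≥ (3/4) a^b` (`(1-e)^b ≥ 7/8`; TRV, BRK (1)). `(b+1) kc G univ (b+1) = ∑_v kc G N(v) b ≥ (3/4)(1-ε) m a^b`.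
`B₂ = {v ∈ D : card (N(v) \ D) > a/4}`: `∑_v card (N(v) \ D) = ∑_(y ∉ D) deg y ≤ Δ ε m`, so `card B₂ ≤ 4 (b+1) ε m`. Cliques `K ∈
clq univ (b+1)` with a vertex in `Dᶜ ∪ B₂`: `≤ (1 + 4(b+1)) ε m (a+1)^b` (`zyk`: `kc G N(v) b ≤ (a+1)^b`). For `v ∈ D` let
`T v` = the `y ∈ N(v)`, `y ∈ P v j`, `card (non G (P v k) y) > C₅` for some `k ≠ j`: `card (T v) ≤ C a/C₅`. Cliques `K` with
`v ∈ K`, `y ∈ K`, `y ∈ T v`: `≤ ∑_v card (T v) Δ^(b-1) ≤ m (C/C₅)(b+1)^(b-1) a^b`. Choose `ε`, `C₅` so that some `K` is left;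
`κ` = an enumeration of `K` (`Finset.equivFin` or `orderEmb`-free: `K.equivFinOfCardEq`). -/
def FNDStmt : Prop :=
  ∀ p r : ℕ, PrZ p r → ∀ C : ℝ, 0 < C → ∃ ε C₅ : ℝ, 0 < ε ∧ 0 < C₅ ∧ ∀ e : ℝ, 0 < e →
    e ≤ 1 / (8 * ((p : ℝ) + 3)) → ∃ a₀ : ℕ, ∀ a ≥ a₀, ∀ {V : Type} [Fintype V] [DecidableEq V]
    (G : SimpleGraph V), G8 G p r a → Nonempty V → ∀ (D : Finset V)
    (P : V → Fin (p + 3) → Finset V), (∀ v ∈ D, Cl G p r a e C v (P v)) →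
    ((univ \ D).card : ℝ) ≤ ε * Fintype.card V →
    ∃ κ : Fin (p + 4) → V, (∀ i j, i ≠ j → G.Adj (κ i) (κ j)) ∧ (∀ i, κ i ∈ D) ∧
      (∀ i, ((nb G univ (κ i) \ D).card : ℝ) ≤ 1 / 4 * a) ∧
      (∀ i l, i ≠ l → ∀ j, κ l ∈ P (κ i) j → ∀ k, k ≠ j →
        ((non G (P (κ i) k) (κ l)).card : ℝ) ≤ C₅)

/-- (ARR) The array. PROOF. `i` fixed: every `κ j`, `j ≠ i`, is in exactly one part `P (κ i) (σ j)` of `N(κ i)` (`cov`,
`U = ∅`), `σ` is injective (the parts are independent), so a bijection from `{j // j ≠ i}` (`p + 3` elements) to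
`Fin (p + 3)`. `A i j = P (κ i) (σ j)` for `j ≠ i`, `A i i = ∅`. All fields from `Str` (`tot` : a sum over two fixed
parts is at most `tot G P`). -/
def ARRStmt : Prop :=
  ∀ {V : Type} [Fintype V] [DecidableEq V] (G : SimpleGraph V) (p r a : ℕ) (e C C₅ : ℝ)
    (D : Finset V) (P : V → Fin (p + 3) → Finset V) (κ : Fin (p + 4) → V), 0 < C → 0 < C₅ →
    0 ≤ e → (∀ v ∈ D, Cl G p r a e C v (P v)) →
    (∀ i j, i ≠ j → G.Adj (κ i) (κ j)) → (∀ i, κ i ∈ D) →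
    (∀ i, ((nb G univ (κ i) \ D).card : ℝ) ≤ 1 / 4 * a) →
    (∀ i l, i ≠ l → ∀ j, κ l ∈ P (κ i) j → ∀ k, k ≠ j →
      ((non G (P (κ i) k) (κ l)).card : ℝ) ≤ C₅) →
    ∃ A, Arr G p r a e C C₅ D κ A

/-- (GRE) Greedy choice of a transversal clique. PROOF. Induction on `J` (`Finset.induction_on`) for all `B` with
`(card J) x < card (B j)`: for `J = insert k J'` choose any `u ∈ B k`, replace `B j` by `B j \ non G (B j) u` for `j ∈ J'`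
(at most `x` elements are removed, `card J' x <` what is left). -/
def GREStmt : Prop :=
  ∀ {V : Type} [DecidableEq V] (G : SimpleGraph V) (b : ℕ) (B : Fin b → Finset V)
    (J : Finset (Fin b)) (x : ℝ), J.Nonempty → 0 ≤ x →
    (∀ j ∈ J, ∀ u ∈ B j, ∀ k ∈ J, k ≠ j → ((non G (B k) u).card : ℝ) ≤ x) →
    (∀ j ∈ J, (J.card : ℝ) * x < ((B j).card : ℝ)) →
    ∃ y : Fin b → V, (∀ j ∈ J, y j ∈ B j) ∧ (∀ j ∈ J, ∀ k ∈ J, j ≠ k → G.Adj (y j) (y k))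

/-- (COA) Properties of the array. PROOF. `b = p + 3`. (1) `y ∈ A i j`, `y ∉ A k j`, `i, j, k` different. Either `y` is not
adjacent to `κ k` (at most `C₅` such `y`: `typ i k j`), or `y ∈ A k l` (`nbr`), `l ≠ j`; `l ≠ k` (`emp`), `l ≠ i` (`κ i ∈ A k i`,
`y ~ κ i`, `ind`); `y` is not adjacent to `κ j` (`ind i j`, `mem`), so `y ∈ non G (A k l) (κ j)`, at most `C₅` for each `l`
(`typ k j l`). (2) Let `y ∈ A i j ∩ A k l`, `j ≠ l`. Then `i ≠ k` (`dis`), `y ~ κ i`, `y ~ κ k`, `y` is not adjacent to `κ j`, `κ l`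
(if `j ≠ k` resp. in general: `κ j ∈ A i j`), so `l ≠ i`, `j ≠ k`, and `j ≠ i`, `l ≠ k` (`emp`). `mis i j l`: `y` has at most `e1 a`
nonneighbours in `A i l`. But `y` is adjacent to nothing in `A k l` (`ind`), and by (1) `card (A i l ∩ A k l) ≥ (1-e) a - b C₅ >
e1 a`. -/
def COAStmt : Prop :=
  ∀ p r : ℕ, PrZ p r → ∀ C₅ : ℝ, 0 < C₅ → ∃ a₀ : ℕ, ∀ a ≥ a₀,
    ∀ {V : Type} [Fintype V] [DecidableEq V] (G : SimpleGraph V) (e C : ℝ) (D : Finset V)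
    (κ : Fin (p + 4) → V) (A : Fin (p + 4) → Fin (p + 4) → Finset V), e ≤ 1 / 8 →
    Arr G p r a e C C₅ D κ A →
    (∀ i j k, i ≠ j → i ≠ k → j ≠ k → ((A i j \ A k j).card : ℝ) ≤ ((p : ℝ) + 3) * C₅) ∧
    (∀ i j k l, j ≠ l → Disjoint (A i j) (A k l))

/-- (COB) A vertex of the array is nearly complete to all other parts. Needs COA.
PROOF. `z ∈ A i j` (so `j ≠ i`); let `q ≠ j`, `q ≠ i` first: `mis`: `card (non G (A i q) z) ≤ e1 a`, and for any `l ≠ q`, `l ≠ i`: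
`non G (A l q) z ⊆ non G (A i q) z ∪ (A l q \ A i q)`, so `≤ e1 a + b C₅` (COA (1)). Now `q = i`. Choose `k ∉ {i, j}` and `y ∈ A i k` with `y ∈ D`, `y ~ z`, `y ~ κ l`
for all `l ≠ k`: at most `a/4 + e1 a + b C₅ < (1-e) a` elements of `A i k` fail (`few`, `mis i j k`, `typ i l k`; `l = i`
is clear). `Cl G .. y (P y)`: `N(y) = ∪ P y m`; `κ i ∈ P y m₀ =: R`, `z ∈ P y m₁`, `z ~ κ i`, so `m₁ ≠ m₀` and `card (non G R z) ≤ e1 a`.
Let `l ∉ {i, k}`. `y ∈ A l k` (`nbr l`: `y ∈ A l k'`, and `k' = k` by COA (2)), so `card (A l i \ N(y)) ≤ e1 a` (`mis l k i`). For `x ∈ A l i ∩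
N(y)`, `x ∈ P y m` with `m ≠ m₀`: `x` is not adjacent to `κ i` (`ind l i`, `mem`), so `x ∈ non G (P y m) (κ i)`: at most `e1 a` for each
`m`. So `card (A l i \ R) ≤ b e1 a`, `card (non G (A l i) z) ≤ (b+1) e1 a`; for `l' = k` add `card (A k i \ A l i) ≤ b C₅` (COA (1)). -/
def COBStmt : Prop :=
  ∀ p r : ℕ, PrZ p r → ∀ C₅ : ℝ, 0 < C₅ → ∃ a₀ : ℕ, ∀ a ≥ a₀,
    ∀ {V : Type} [Fintype V] [DecidableEq V] (G : SimpleGraph V) (e C : ℝ) (D : Finset V)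
    (P : V → Fin (p + 3) → Finset V) (κ : Fin (p + 4) → V)
    (A : Fin (p + 4) → Fin (p + 4) → Finset V), 0 < e → e ≤ 1 / 8 →
    (∀ v ∈ D, Cl G p r a e C v (P v)) → Arr G p r a e C C₅ D κ A →
    ∀ i j, ∀ z ∈ A i j, ∀ q, q ≠ j → ∀ l, l ≠ q →
      ((non G (A l q) z).card : ℝ) ≤ ((p : ℝ) + 4) * e1 p * a + ((p : ℝ) + 3) * C₅

/-- (COR) The core. Needs COA, COB, GRE. `Q j = univ.biUnion (fun i => A i j)`.
PROOF. `b = p + 3`, `g = (b+2) e1`. `card (Q j \ A i j) ≤ (b+1) b C₅` for `i ≠ j` (COA (1)). `mis`: for `z ∈ Q j`, `q ≠ j`, any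
`l ≠ q`: `non G (Q q) z ⊆ non G (A l q) z ∪ (Q q \ A l q)`, COB: `≤ (b+1) e1 a + K ≤ g a` for `a` large. `dis`: COA (2). `ind`: `z, z' ∈ Q j` adjacent: GRE with `J = univ.erase j`, `B k = Q k ∩ N(z) ∩ N(z')`, `x = g a`:
`card (B k) ≥ (1-e) a - 2 g a > b g a`; with `z`, `z'` this is a clique with `b + 2` vertices, against `G8.cb`. `siz`: `Δ = card
N(κ i) = ∑_(j ≠ i) card (A i j)`, so with `T = ∑_j card (Q j)`: `T - card (Q i) ∈ [Δ, Δ + K]` for all `i`, sum over `i`: `b T ∈ [(b+1)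
Δ, (b+1)(Δ+K)]`, `card (Q i) = a + O(1)`. `tot`: pairs `z ∈ Q j`, `z' ∈ Q k` nonadjacent, `l ∉ {j, k}`: both in `A l j`, `A l k`
(`≤ C a` pairs) or one of them is among the `(b+1) b C₅` others (`≤ g a` each). `full`: `v = κ j`. -/
def CORStmt : Prop :=
  ∀ p r : ℕ, PrZ p r → ∀ C C₅ : ℝ, 0 < C → 0 < C₅ → ∃ C₆ : ℝ, 0 < C₆ ∧ ∃ a₀ : ℕ, ∀ a ≥ a₀,
    ∀ {V : Type} [Fintype V] [DecidableEq V] (G : SimpleGraph V) (e : ℝ) (D : Finset V)
    (P : V → Fin (p + 3) → Finset V) (κ : Fin (p + 4) → V)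
    (A : Fin (p + 4) → Fin (p + 4) → Finset V), G8 G p r a → 0 < e → e ≤ 1 / 8 →
    (∀ v ∈ D, Cl G p r a e C v (P v)) → Arr G p r a e C C₅ D κ A →
    ∃ Q, Cor G p r a C₆ Q

/-- (EXP) From the core to the block. Needs GRE.
PROOF. `b = p + 3`, `g = (b+2) e1 = (b+2)/(16 b^3)`, `g₂ = 1/(16 (b+2))` (`g ≤ g₂/2` as `2 (b+2)^2 ≤ b^3`, `b ≥ 6`). `Q' j` = the
`z : V` with `card (non G (Q k) z) ≤ g₂ a` for all `k ≠ j`; `Q j ⊆ Q' j`. GRE is used with `B k ⊆ Q k`, `x = g a`, for `k` in a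
set `J`; each time it gives a clique with `b + 2` vertices, against `G8.cb`. (i) `z ∈ Q' j ∩ Q' k`, `j ≠ k`: `z` misses `≤ g₂ a` of
each part, `B = Q l ∩ N(z)`, `J = univ`. (ii) `z, z' ∈ Q' j` adjacent: `J = univ.erase j`, `B = Q l ∩ N(z) ∩ N(z')`. (iii) The
number of added vertices is at most `C₆`: each has `≥ b (a - C₆ - g₂ a) ≥ (b-1) a` neighbours in `un Q`, and a `u ∈ Q j` has
at most `Δ - (card (un Q) - card (Q j) - h u) ≤ h u` neighbours outside `un Q` (`full`: `card (un Q) - card (Q j) ≥ Δ`, as `N(v)` is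
in `un Q` and does not meet `Q j`), `∑ h = tot ≤ C₆ a`. (iv) `siz`, `mis` (`h z ≤ b g₂ a + C₆ ≤ a/4`), `tot` (new pairs: `2 C₆ (b g₂ a +
C₆)`), `full` clear. (v) `out`: `q ∉ un Q'`. By GRE (`J = univ`, `B = Q l ∩ N(q)`) there is `j₀` with `card (Q j₀ ∩ N(q)) ≤ (b+1) g a`.
If this set has an element `y`: GRE with `J = univ.erase j₀`, `B = Q l ∩ N(q) ∩ N(y)` gives `j₂ ≠ j₀` with `card (Q j₂ ∩ N(q)) ≤ b g
a + g a`: the sum over all parts is `≤ (b-1)(a + C₆) + 2 (b+1) g a ≤ (b - 1/2) a`. If it is empty: `q ∉ Q' j₀` gives `k ≠ j₀` with more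
than `g₂ a` nonneighbours: `≤ b (a + C₆) - g₂ a`. Add the new vertices (`≤ C₆`): `≤ (b - g₂/2) a`. -/
def EXPStmt : Prop :=
  ∀ p r : ℕ, PrZ p r → ∀ C₆ : ℝ, 0 < C₆ → ∃ C : ℝ, 0 < C ∧ ∃ a₀ : ℕ, ∀ a ≥ a₀,
    ∀ {V : Type} [Fintype V] [DecidableEq V] (G : SimpleGraph V) (Q : Fin (p + 4) → Finset V),
    G8 G p r a → Cor G p r a C₆ Q → ∃ Q', Blb G p r a C Q'

/-! ### Counting in a block -/

/-- (BLE) Triangles in a multipartite graph with missing pairs. `h u` = number of missing pairs at `u`.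
PROOF. `T` = the triples with elements in three different parts, `card T = es (sz Q) 3` (`EST (1)`). A triple with `x` missing
pairs is a triangle iff `x = 0`, and `1 ≤ [x = 0] + x - choose x 2 + ..`, precisely `[x ≥ 1] ≥ x - choose x 2`. `∑_T x` = half of
the double sum on the left; `∑_T choose x 2` = number of (triple, two missing pairs), these share a vertex `u`:
`≤ ∑_u choose (h u) 2`. Multiply by `2`. -/
def BLEStmt : Prop :=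
  ∀ {V : Type} [DecidableEq V] (G : SimpleGraph V) (b : ℕ) (Q : Fin b → Finset V), Par G Q →
    2 * (kc G (un Q) 3 : ℝ) + ∑ j, ∑ k ∈ univ.erase j, ∑ u ∈ Q j, ((non G (Q k) u).card : ℝ) *
        (((un Q).card : ℝ) - (Q j).card - (Q k).card) ≤
      2 * (es (sz Q) 3 : ℝ) + ∑ j, ∑ u ∈ Q j,
        ((∑ k ∈ univ.erase j, (non G (Q k) u).card : ℕ) : ℝ) *
        (((∑ k ∈ univ.erase j, (non G (Q k) u).card : ℕ) : ℝ) - 1)

/-- (CRS) Triangles which meet `S`. PROOF. Three vertices in `S`; two vertices in `S`: count by the outer vertex `q`; one vertex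
`z ∈ S`: at most `choose (c z) 2` (`kc_le_choose`), `c z = card (nb G (univ \ S) z)`. The second part: if `∑ c ≤ 1` there are no
triangles of the last two kinds (such a triangle has at least two edges between `S` and its complement). -/
def CRSStmt : Prop :=
  ∀ {V : Type} [Fintype V] [DecidableEq V] (G : SimpleGraph V) (S : Finset V),
    (kc G univ 3 ≤ kc G (univ \ S) 3 + kc G S 3 +
      ∑ z ∈ S, ((nb G (univ \ S) z).card).choose 2 + ∑ q ∈ univ \ S, kc G (nb G S q) 2) ∧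
    (∑ z ∈ S, (nb G (univ \ S) z).card ≤ 1 → kc G univ 3 ≤ kc G (univ \ S) 3 + kc G S 3)

/-- (DLB) The deficits in a block. `S = un Q`, `n j = card (Q j)`. PROOF. `full`: `v ∈ Q j` has all its `Δ` neighbours in `S`, none
in `Q j`: `n j + Δ ≤ card S`. So `s` with `card S = Δ + a + s` exists in `ℤ` and `σ j = a + s - n j ≥ 0`, `∑ σ = (b+1)(a+s) - card S = b s - r ≥
0`, so `s ≥ 1` (`r ≥ 1`). `card S ≤ (b+1)(a + C)` gives `s ≤ K`, `σ j ≤ a + s - (a - C) ≤ K`. For `u ∈ Q j`: `card (nb G S u) = card S - n j - h u`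
(all of `S` except `Q j` and the missing ones), so `h u = σ j + dl u` (`dl` as a natural number: `card (nb G S u) ≤ Δ`).
`card (nb G (univ \ S) u) ≤ dl u`. `tot = ∑ h` is even (symmetric). `dl ≤ h ≤ a/4`, `∑ dl ≤ tot ≤ C a`. -/
def DLBStmt : Prop :=
  ∀ p r : ℕ, PrZ p r → ∀ C : ℝ, 0 < C → ∃ K : ℕ, ∀ a ≥ K,
    ∀ {V : Type} [Fintype V] [DecidableEq V] (G : SimpleGraph V) (Q : Fin (p + 4) → Finset V),
    G8 G p r a → Blb G p r a C Q → ∃ (s : ℕ) (σ : Fin (p + 4) → ℕ), 1 ≤ s ∧ s ≤ K ∧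
      (∀ j, σ j ≤ K) ∧ (∀ j, (Q j).card + σ j = a + s) ∧ ∑ j, σ j + r = (p + 3) * s ∧
      (un Q).card = (p + 3) * a + r + a + s ∧
      (∀ j, ∀ u ∈ Q j, ∑ k ∈ univ.erase j, (non G (Q k) u).card =
        σ j + dl G p r a (un Q) u) ∧
      (∀ u ∈ un Q, (nb G (univ \ un Q) u).card ≤ dl G p r a (un Q) u) ∧
      (∀ u ∈ un Q, (dl G p r a (un Q) u : ℝ) ≤ a / 4) ∧
      ((∑ u ∈ un Q, dl G p r a (un Q) u : ℕ) : ℝ) ≤ C * a ∧
      Even (∑ j, (Q j).card * σ j + ∑ u ∈ un Q, dl G p r a (un Q) u)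

/-- (KUB) The number of triangles of a block. Needs BLE, DLB (its conclusions are the hypotheses here).
PROOF. `h u = σ j + δ u`, `card S - n j - n k = (b-1) a + r - s + σ j + σ k`. The double sum in BLE is `((b-1) a + r - s) ∑ h + 2 ∑_u h u σ(u)` (it
is symmetric in the two vertices), `∑ h = ∑ n j σ j + ∑ δ`, and `-2 h σ + h (h - 1) = δ (δ - 1) - σ (σ + 1)` for `h = σ + δ`. -/
def KUBStmt : Prop :=
  ∀ (p r a s : ℕ) {V : Type} [Fintype V] [DecidableEq V] (G : SimpleGraph V)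
    (Q : Fin (p + 4) → Finset V) (σ : Fin (p + 4) → ℕ), Par G Q →
    (∀ j, (Q j).card + σ j = a + s) → (un Q).card = (p + 3) * a + r + a + s →
    (∀ j, ∀ u ∈ Q j, ∑ k ∈ univ.erase j, (non G (Q k) u).card = σ j + dl G p r a (un Q) u) →
    (kc G (un Q) 3 : ℝ) ≤ Psi p r a s (fun j => (Q j).card) σ -
      1 / 2 * (((p : ℝ) + 2) * a + r - s) * ∑ u ∈ un Q, (dl G p r a (un Q) u : ℝ) +
      ∑ u ∈ un Q, ((dl G p r a (un Q) u : ℝ) * (dl G p r a (un Q) u - 1)) / 2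

/-- (CQB) The triangles which leave the block are paid for. Needs ZYG (`q = b`, `j = 2`: `kc G W 2 ≤ (b-1)/(2b) card W^2`).
PROOF. `b = p + 3`, `δ = dl`, `c z ≤ δ z`, `g = 1/(32 (b+2))`, `c₉ = 1/(400 (b+2))`, `η = 1/(200 (b+2))`, `Z = {z ∈ S : δ z ≥ η a}`,
`card Z ≤ C/η =: Z₀`. `choose (c z) 2 + δ (δ-1)/2 ≤ δ^2 ≤ η a δ` outside `Z`, `≤ (a/4) δ` in `Z`. For `q ∉ S`: `N(q)` has no
`(b+1)`-clique, `ν = card (N(q) ∩ (S \ Z))`, `ζ = card (N(q) ∩ Z) ≤ Z₀`: `kc G (nb G S q) 2 ≤ (b-1)/(2b) ν^2 + ζ ν + ζ^2 ≤ ((b-1)/2 a (1 - g/b) + Z₀) ν +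
Z₀ ζ` (`out`: `ν ≤ (b - g) a`). Sum over `q`: `∑ ν = ∑_(z ∈ S \ Z) c z`, `∑ ζ = ∑_(z ∈ Z) c z`. Outside `Z` per unit of `δ`: `η a + (b-1)/2 a (1 -
g/b) + Z₀ + C + c₉ a ≤ (b-1)/2 a` for `a` large, since `(b-1) g/(2b) ≥ (5/12)/(32 (b+2)) > 1/(80 (b+2)) > η + c₉`. In `Z`: `a/4 + Z₀ + C + c₉ a
≤ (b-1)/2 a`. -/
def CQBStmt : Prop :=
  ∀ p r : ℕ, PrZ p r → ∀ C : ℝ, 0 < C → ∃ a₀ : ℕ, ∀ a ≥ a₀,
    ∀ {V : Type} [Fintype V] [DecidableEq V] (G : SimpleGraph V) (Q : Fin (p + 4) → Finset V),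
    G8 G p r a → Blb G p r a C Q →
    (∀ u ∈ un Q, (nb G (univ \ un Q) u).card ≤ dl G p r a (un Q) u) →
    (∀ u ∈ un Q, (dl G p r a (un Q) u : ℝ) ≤ a / 4) →
    ((∑ u ∈ un Q, dl G p r a (un Q) u : ℕ) : ℝ) ≤ C * a →
    ∑ z ∈ un Q, (((nb G (univ \ un Q) z).card).choose 2 : ℝ) +
        ∑ u ∈ un Q, ((dl G p r a (un Q) u : ℝ) * (dl G p r a (un Q) u - 1)) / 2 +
        ∑ q ∈ univ \ un Q, (kc G (nb G (un Q) q) 2 : ℝ) +
        (a / (400 * ((p : ℝ) + 5)) + C) * ∑ u ∈ un Q, (dl G p r a (un Q) u : ℝ) ≤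
      ((p : ℝ) + 2) / 2 * a * ∑ u ∈ un Q, (dl G p r a (un Q) u : ℝ)

/-- (CQS) The same if the sum of the deficits is bounded. PROOF. With `D = ∑ δ`: `∑ choose (c z) 2 + ∑ δ (δ-1)/2 ≤ ∑ δ^2 ≤ D^2`,
`kc G (nb G S q) 2 ≤ (card (nb G S q))^2`, `∑_q card (nb G S q) = ∑_z c z ≤ D`. -/
def CQSStmt : Prop :=
  ∀ (p r a : ℕ) {V : Type} [Fintype V] [DecidableEq V] (G : SimpleGraph V) (S : Finset V),
    (∀ u ∈ S, (nb G (univ \ S) u).card ≤ dl G p r a S u) →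
    ∑ z ∈ S, (((nb G (univ \ S) z).card).choose 2 : ℝ) +
        ∑ u ∈ S, ((dl G p r a S u : ℝ) * (dl G p r a S u - 1)) / 2 +
        ∑ q ∈ univ \ S, (kc G (nb G S q) 2 : ℝ) ≤
      2 * (∑ u ∈ S, (dl G p r a S u : ℝ)) ^ 2

/-! ### Numbers -/

/-- (NS1) `s = 1`: the best `σ` has values in `{0, 1}`. Needs EST. PROOF. `n j = a + 1 - σ j`, `q = ∑ σ^2 ≥ ∑ σ = b - r`. `es n 3 = choose (b+1) 3
(a+1)^3 - choose b 2 (a+1)^2 (b-r) + (b-1)(a+1) ((b-r)^2 - q)/2 - es σ 3` (expand `∏ (1 + n j X)`, or `EST`-like induction; `es n 3` is a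
polynomial in the power sums of `n`: `6 es n 3 = p₁^3 - 3 p₁ p₂ + 2 p₃`). As a function of `q` the coefficient of `a` in `Psi` is
`-q/2` + (independent of `σ`), the rest is bounded; if `q > b - r` then `q ≥ b - r + 2` and `Psi ≤ value - a + K`. If `q = b - r`: `σ j ∈
{0, 1}`, `b - r` ones: equality (`EST (2)`: `es n 3 = TT (p+4) 3 a (r+1)`). -/
def NS1Stmt : Prop :=
  ∀ p r : ℕ, PrZ p r → ∃ a₀ : ℕ, ∀ a ≥ a₀, ∀ n σ : Fin (p + 4) → ℕ,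
    (∀ j, n j + σ j = a + 1) → ∑ j, σ j + r = p + 3 →
    Psi p r a 1 n σ ≤ (TT (p + 4) 3 a (r + 1) : ℝ) -
      1 / 2 * (((p + 3 - r : ℕ) : ℝ) * a) * Xz p r a

/-- (NS2) `s ≥ 2`. PROOF. `n j = a + s - σ j`, `∑ σ = b s - r`, all bounded: `es n 3 = A a^3 + choose b 2 (r + s) a^2 + O(a)`, `A = choose (b+1) 3`;
`Psi = A a^3 + (b-1)(b+1) r/2 a^2 + O(a)` for every `s` (`choose b 2 (r+s) - (b-1)(b s - r)/2 = (b-1)(b+1) r/2`), also `kx`. So the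
difference of the two sides is `A (s-1) a^3 + O(a^2) > 0`. -/
def NS2Stmt : Prop :=
  ∀ p r : ℕ, PrZ p r → ∀ K : ℕ, ∃ a₀ : ℕ, ∀ a ≥ a₀, ∀ s, 2 ≤ s → s ≤ K →
    ∀ n σ : Fin (p + 4) → ℕ, (∀ j, n j + σ j = a + s) → (∀ j, σ j ≤ K) →
    ∑ j, σ j + r = (p + 3) * s →
    Psi p r a s n σ * ((((p + 3) * a + r + a + 1 : ℕ)) : ℝ) ≤
      kx p r a * ((((p + 3) * a + r + a + s : ℕ)) : ℝ)

/-- (NAV) The average deficit of `R`. PROOF. `E = TT (p+3) 2 a r = choose b 2 a^2 + (b-1) r a + choose r 2`, `n_R = (b+1) a + r + 1`, `kx ≥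
choose (b+1) 3 a^3 + (b-1)(b+1) r/2 a^2 - K a`: `E n_R - 3 kx = (b-1)(b-r)/2 a^2 + O(a)` and `lz (b+1) = (b-1)(b-r)/2`. Also `0 < kx` and `kx ≥`
.. for `a` large. -/
def NAVStmt : Prop :=
  ∀ p r : ℕ, PrZ p r → ∃ K : ℝ, 0 < K ∧ ∃ a₀ : ℕ, ∀ a ≥ a₀, 0 < kx p r a ∧
    (TT (p + 3) 2 a r : ℝ) * ((((p + 3) * a + r + a + 1 : ℕ)) : ℝ) - 3 * kx p r a ≤
      (lz p r * a + K) * ((((p + 3) * a + r + a + 1 : ℕ)) : ℝ)

/-- (RFG) The extremal graph `R`. Needs EST. PROOF. `N = (p+4) a + r + 1`, classes of `Fin N` modulo `p + 4`: `i ≤ r` have `a + 1`, `i > r`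
have `a` elements (`small`). List the `k = (b-r) a` small vertices in increasing order `x 0, .., x (k-1)` (two consecutive
ones are in different classes, as `b - r ≥ 3`); remove from `turanGraph N (p+4)` the edges `x (2i) x (2i+1)`, and if `k` is odd
also `x (k-1) 0` (vertex `0` is in a class with `a + 1` elements). Any other such matching may be used. Degrees: a vertex in
a class with `a + 1` elements has degree `N - a - 1 = Δ`; a small one has `N - a - 1` (one edge removed) `= Δ`. `CliqueFree`: subgraph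
of the Turán graph (`turanGraph_cliqueFree`). Triangles: `TT (p+4) 3 a (r+1)` (lower bound: `TCT`, as `gt7`) minus, for each removed edge
`x y`, the number of common neighbours in the Turán graph: `N - 2a = Xz` for two small vertices, `N - 2a - 1 = Xz - 1` for the last
one. If `k` is odd: `(k-1)/2 Xz + Xz - 1 = k/2 Xz + (Xz/2 - 1)`. -/
def RFGStmt : Prop :=
  ∀ p r a : ℕ, PrZ p r → 1 ≤ a → ∃ R : SimpleGraph (Fin ((p + 3) * a + r + a + 1)),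
    (∀ v, (R.neighborSet v).ncard ≤ (p + 3) * a + r) ∧ R.CliqueFree (p + 5) ∧
    kx p r a ≤ ({s : Finset (Fin ((p + 3) * a + r + a + 1)) | R.IsNClique 3 s}.ncard : ℝ)

/-! ### Assembly -/

/-- (BLK) A graph with many triangles has a block. Needs WSG, FND, ARR, COR, EXP, NAV.
PROOF. `C` from WSG; FND gives `ε`, `C₅` for this `C`; WSG with this `ε`, `e = 1/(8 (p+3))` and `K` from NAV; COR gives `C₆`, EXP the constant `C`
of the block. `∑ df = card V * TT (p+3) 2 a r - 3 kc G univ 3 ≤ card V (TT - 3 kx/n_R) ≤ (lz a + K) card V`. -/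
def BLKStmt : Prop :=
  ∀ p r : ℕ, PrZ p r → ∃ C : ℝ, 0 < C ∧ ∃ a₀ : ℕ, ∀ a ≥ a₀,
    ∀ {V : Type} [Fintype V] [DecidableEq V] (G : SimpleGraph V), G8 G p r a → Nonempty V →
    kx p r a * Fintype.card V ≤ kc G univ 3 * ((((p + 3) * a + r + a + 1 : ℕ)) : ℝ) →
    ∃ Q, Blb G p r a C Q

/-- (MAN) The triangles meeting a block. Needs DLB, KUB, CQB, CQS, CRS, NS1, NS2. `S = un Q`, `D = ∑ δ`, `Y = Psi ..`, `n_R = Δ + a + 1`.
PROOF. DLB: `s`, `σ`. CQB and KUB and CRS: `cl := kc univ 3 - kc (univ \ S) 3 ≤ Y - c₉ a D` (`c₉ = 1/(400 (p+5))`; `- (1/2)(r - s) D ≤ (K/2)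
D`: use CQB with the constant `max C K`, `Blb` is monotone in `C`). `s ≥ 2`: `cl ≤ Y`, NS2, `card S = n_R + s - 1`. `s = 1`: `card S = n_R`, `Y ≤
Y₀ := TT - (1/2)(b-r) a Xz` (NS1), `kx = Y₀ - (0 or Xz/2 - 1)`, and `D ≡ ∑ n σ ≡ (b - r) a` modulo `2` (DLB: `n j = a + 1 - σ j`, `σ^2 ≡ σ`, `∑ σ = b -
r`). `D = 0` (so `(b-r) a` even): CRS (2), KUB: `cl ≤ Y ≤ kx`. `D = 1` (odd): CRS (2), KUB: `cl ≤ Y - (1/2)((b-1) a + r - 1) = Y - (Xz/2 - 1) ≤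
kx`. `D ≥ 2`, `c₉ a D ≥ Xz/2`: `cl ≤ Y - Xz/2 ≤ kx`. `2 ≤ D ≤ M := 400 (p+5)^2`: CQS: `cl ≤ Y - (1/2)((b-1) a + r - 1) D + 2 M^2 ≤ Y - ((b-1) a + r - 1) + 2
M^2 ≤ Y - Xz/2` for `a` large. -/
def MANStmt : Prop :=
  ∀ p r : ℕ, PrZ p r → ∀ C : ℝ, 0 < C → ∃ a₀ : ℕ, ∀ a ≥ a₀,
    ∀ {V : Type} [Fintype V] [DecidableEq V] (G : SimpleGraph V) (Q : Fin (p + 4) → Finset V),
    G8 G p r a → Blb G p r a C Q →
    ((kc G univ 3 : ℝ) - kc G (univ \ un Q) 3) * ((((p + 3) * a + r + a + 1 : ℕ)) : ℝ) ≤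
      kx p r a * (un Q).card

/-- (FNZ) The theorem. Needs BLK, MAN, RFG, NAV. PROOF. First for all finite types `V` and `G8 G p r a`: `kc G univ 3 * n_R ≤ kx * card V`, by
strong induction on `card V` (or on finite sets `W ⊆ V` with the induced graph: better prove for all `Finset W` of a fixed
`V`: apply BLK, MAN to the induced graph on the subtype `W`; `kc_map`). If it fails, BLK gives a block, MAN: delete `un Q`
(nonempty); the induced graph on the complement is `G8` again, add. Then `ncard_eq_kc` and RFG, `kx ≤` count of `R`. -/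
def FNZStmt : Prop :=
  ∀ p r : ℕ, PrZ p r → ∃ a₀ : ℕ, ∀ a ≥ a₀,
    ∃ R : SimpleGraph (Fin ((p + 3) * a + r + a + 1)),
      (∀ v, (R.neighborSet v).ncard ≤ (p + 3) * a + r) ∧ R.CliqueFree (p + 5) ∧
      ({s : Finset (Fin ((p + 3) * a + r + a + 1)) | R.IsNClique 3 s}.ncard : ℝ) = kx p r a ∧
      ∀ (m : ℕ) (H : SimpleGraph (Fin m)),
        (∀ v, (H.neighborSet v).ncard ≤ (p + 3) * a + r) → H.CliqueFree (p + 5) →
        {s : Finset (Fin m) | H.IsNClique 3 s}.ncard * ((p + 3) * a + r + a + 1) ≤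
          {s : Finset (Fin ((p + 3) * a + r + a + 1)) | R.IsNClique 3 s}.ncard * m

end Pool.HZ7
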